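import Mathlib
import Pool.Agent.Z894.LX.Stm

set_option autoImplicit false

open MvPolynomial

namespace Pool.Agent.Y87.LX

open Pool.Agent.TH922.KC Pool.Agent.Z894.LX

/-- from a robust walk and a covering of its steps to a robust relation -/
lemma robR_of_walk {n m N r G : ℕ} {g : Fin r → Option (Fin G)} {w : ℕ → Fin (N + 1)}
    {ga gb : Fin G → Fin (N + 1)} {S : Fin r → Finset (Fin (N + 1))}
    (hw : ∀ K : Finset (Fin (N + 1)), K.card ≤ n →
      ∃ T : Finset (Fin (N + 1)), Disjoint K T ∧ n + 1 ≤ K.card + T.card ∧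
        ∀ U ⊂ T, U.Nonempty → ∃ t < m, (w t ∈ U ∧ w (t + 1) ∈ T \ U) ∨
          (w (t + 1) ∈ U ∧ w t ∈ T \ U))
    (hc : ∀ t < m, (∃ c, ga c = w t ∧ gb c = w (t + 1)) ∨
        ∃ i, g i = none ∧ w t ∈ S i ∧ w (t + 1) ∈ S i) :
    RobR n (N + 1) (fun x y =>
      (∃ c, (ga c = x ∧ gb c = y) ∨ (ga c = y ∧ gb c = x)) ∨
      ∃ i, g i = none ∧ x ∈ S i ∧ y ∈ S i) := by
  intro K hK
  obtain ⟨T, h1, h2, h3⟩ := hw K hK
  refine ⟨T, h1, h2, fun U hU hne => ?_⟩
  obtain ⟨t, ht, hcr⟩ := h3 U hU hne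
  rcases hcr with ⟨h4, h5⟩ | ⟨h4, h5⟩
  · refine ⟨w t, h4, w (t + 1), h5, ?_⟩
    rcases hc t ht with ⟨c, h6, h7⟩ | ⟨i, hi, h6, h7⟩
    · exact Or.inl ⟨c, Or.inl ⟨h6, h7⟩⟩
    · exact Or.inr ⟨i, hi, h6, h7⟩
  · refine ⟨w (t + 1), h4, w t, h5, ?_⟩
    rcases hc t ht with ⟨c, h6, h7⟩ | ⟨i, hi, h6, h7⟩
    · exact Or.inl ⟨c, Or.inr ⟨h6, h7⟩⟩
    · exact Or.inr ⟨i, hi, h7, h6⟩

/-- **part 10** -/
theorem final_holds (h6 : Pool.Agent.Z894.LX.GMixed) (h7 : Pool.Agent.Z894.LX.GPlace)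
    (h8 : Pool.Agent.Z894.LX.GGroup) : Pool.Agent.Z894.LX.GFinal := by
  intro n r hn0 d
  obtain ⟨bad1, hbad1, hmain1⟩ := main n r d
  obtain ⟨bad2, hbad2, hmain2⟩ := h6 n r d
  refine ⟨fun j => bad1 j * bad2 j, fun j => mul_ne_zero (hbad1 j) (hbad2 j), ?_⟩
  intro f hf hfb I hI hIp hdim hfI m hm l Q hl hQ hQp halt
  have hfb1 : ∀ j, MvPolynomial.eval (fun x => MvPolynomial.coeff x.2.1 (f x.1)) (bad1 j) ≠ 0 := by
    intro j h
    apply hfb j
    rw [map_mul, h, zero_mul]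
  have hfb2 : ∀ j, MvPolynomial.eval (fun x => MvPolynomial.coeff x.2.1 (f x.1)) (bad2 j) ≠ 0 := by
    intro j h
    apply hfb j
    rw [map_mul, h, mul_zero]
  refine eventually_dvd Q hQ _ ?_
  intro p s hp hs hps
  have hpQ : p ∣ Q := (dvd_pow_self p hs).trans hps
  have hlp := hQp p hp hpQ
  set k0 := Nat.log l n with hk0
  have hs1 : 1 ≤ s := Nat.one_le_iff_ne_zero.mpr hs
  have hnp : n < p ^ (k0 + 1) :=
    (Nat.lt_pow_succ_log_self (by omega) n).trans_le (Nat.pow_le_pow_left hlp _)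
  have hsk : s + k0 ≤ s * (1 + k0) := by nlinarith
  by_cases hA : ∃ i, p ^ (n * (s + k0)) ∣ d i
  · obtain ⟨i, hi⟩ := hA
    have hcard : 1 ≤ (Finset.univ.filter fun i => p ^ (n * (s + k0)) ∣ d i).card :=
      Finset.card_pos.mpr ⟨i, Finset.mem_filter.mpr ⟨Finset.mem_univ _, hi⟩⟩
    obtain ⟨K, hK⟩ := hmain1 f hf hfb1 I hI hIp hdim hfI p (s + k0) k0 hp (by
      have h1 : n ≤ p ^ (k0 + 1) - 1 := by omega
      exact h1.trans (Nat.le_mul_of_pos_left _ hcard))
    refine ⟨K, fun k hk => ?_⟩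
    have h1 := hK k hk
    have h2 : ((p ^ (s + k0) : ℕ) : ℤ) = ((p ^ k0 : ℕ) : ℤ) * ((p ^ s : ℕ) : ℤ) := by
      push_cast; ring
    rw [h2] at h1
    have h3 : ((p ^ k0 : ℕ) : ℤ) ≠ 0 := by exact_mod_cast (pow_pos hp.pos k0).ne'
    exact (mul_dvd_mul_iff_left h3).mp h1
  · push Not at hA
    have hd0 : ∀ i, d i ≠ 0 := by
      intro i h
      apply hA i
      rw [h]
      exact dvd_zero _
    -- the common step
    have hC : ∀ (G : ℕ) (g : Fin r → Option (Fin G)) (a : Fin r → ℕ),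
        (∀ c, p ^ (s + k0) ∣ ∏ i ∈ Finset.univ.filter (fun i => g i = some c), d i) →
        (∀ i, g i = none → p ^ ((s + k0) * a i) ∣ d i) →
        m ≤ G + ∑ i ∈ Finset.univ.filter (fun i => g i = none), a i →
        ∃ K : ℕ, ∀ k : ℕ, K ≤ k →
              ((p ^ s : ℕ) : ℤ) ∣
                (Module.finrank ℂ (Submodule.map (Ideal.Quotient.mkₐ ℂ I).toLinearMap
                    (MvPolynomial.homogeneousSubmodule (Fin (n + r + 1)) ℂ (k + 1))) : ℤ) -
                (Module.finrank ℂ (Submodule.map (Ideal.Quotient.mkₐ ℂ I).toLinearMap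
                    (MvPolynomial.homogeneousSubmodule (Fin (n + r + 1)) ℂ k)) : ℤ) := by
      intro G g a hg ha hle
      have han : ∀ i, g i = none → a i < n := by
        intro i hi
        by_contra h
        push Not at h
        apply hA i
        refine (pow_dvd_pow p ?_).trans (ha i hi)
        rw [mul_comm]
        exact Nat.mul_le_mul_left _ h
      obtain ⟨V, w, hw⟩ := hm
      obtain ⟨N, rfl⟩ : ∃ N, V = N + 1 := ⟨V - 1, by have := (w 0).isLt; omega⟩
      obtain ⟨ga, gb, S, hS, hcr⟩ := h7 r G m (N + 1) a g w hle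
      refine hmain2 f hf hfb2 I hI hIp hdim hfI N p s k0 G g ga gb S hp hs hg
        (fun i hi => ⟨Nat.pos_of_ne_zero (hd0 i), (hS i).1, ?_, ?_⟩)
        (robR_of_walk hw hcr)
      · refine (pow_dvd_pow p (Nat.mul_le_mul_left _ ?_)).trans (ha i hi)
        have := (hS i).2
        omega
      · have h1 := (hS i).2
        have h2 := han i hi
        omega
    rcases halt with ⟨G, g, a, hg, ha, hle⟩ | hdiv
    · refine hC G g a (fun c => ?_) (fun i hi => ?_) hle
      · refine dvd_trans ?_ (hg c)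
        refine (pow_dvd_pow p hsk).trans ?_
        rw [pow_mul]
        exact pow_dvd_pow_of_dvd hps _
      · refine dvd_trans ?_ (ha i hi)
        refine (pow_dvd_pow p (Nat.mul_le_mul_right (a i) hsk)).trans ?_
        rw [mul_assoc, pow_mul]
        exact pow_dvd_pow_of_dvd hps _
    · have hfac : ∀ S : Finset (Fin r), (∏ i ∈ S, d i).factorization p
          = ∑ i ∈ S, (d i).factorization p := by
        intro S
        rw [Nat.factorization_prod (fun i _ => hd0 i), Finset.sum_apply']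
      have htot : (2 * m - 1) * (s + k0) ≤ ∑ i, (d i).factorization p := by
        have h1 : p ^ (s * ((2 * m - 1) * (1 + k0))) ∣ ∏ i, d i := by
          rw [pow_mul]
          exact (pow_dvd_pow_of_dvd hps _).trans hdiv
        have h2 := (hp.pow_dvd_iff_le_factorization
          (Finset.prod_ne_zero_iff.mpr fun i _ => hd0 i)).mp h1
        rw [hfac] at h2
        refine le_trans ?_ h2
        calc (2 * m - 1) * (s + k0) ≤ (2 * m - 1) * (s * (1 + k0)) :=
              Nat.mul_le_mul_left _ hsk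
          _ = s * ((2 * m - 1) * (1 + k0)) := by ring
      obtain ⟨G, g, hg, hle⟩ := h8 r m (s + k0) (fun i => (d i).factorization p)
        (by omega) htot
      refine hC G g (fun i => (d i).factorization p / (s + k0)) (fun c => ?_)
        (fun i _ => ?_) hle
      · rw [hp.pow_dvd_iff_le_factorization (Finset.prod_ne_zero_iff.mpr fun i _ => hd0 i), hfac]
        exact hg c
      · rw [hp.pow_dvd_iff_le_factorization (hd0 i)]
        exact Nat.mul_div_le _ _

end Pool.Agent.Y87.LX
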